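import Pool.Agent.H558.PP.DStm

set_option autoImplicit false

/-!
# [H558 PP] S_D7 from S_D6: Borel-Cantelli over the scales `2 ^ (2 ^ r)` (helper168 for helper558)
-/

namespace Pool.Agent.H168.PPD7

open PowerSeries Finset MeasureTheory Pool.Agent.R836.PP Pool.Agent.H558.KK Pool.Agent.H558.PP
open Pool.Agent.K7.H72.MT hiding W few dis DD dis_stable dis_vary DD_stable DD_sum DD_block few_bad
  dis_le DD_le base count

open scoped Classical in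
/-- the sum of `1 / (n + 1)` over the disagreements `n < x` in the residue class -/
noncomputable def SD (M ρ : ℕ) (w : ℕ → ZMod 2) (t : ℤ_[2]) (x : ℕ) : ℝ :=
  ∑ n ∈ range x with n % M = ρ % M ∧ pz t n ≠ w n, 1 / ((n : ℝ) + 1)

theorem SD_mono (M ρ : ℕ) (w : ℕ → ZMod 2) (t : ℤ_[2]) {x y : ℕ} (h : x ≤ y) :
    SD M ρ w t x ≤ SD M ρ w t y := by
  classical
  unfold SD
  apply sum_le_sum_of_subset_of_nonneg
  · apply filter_subset_filter
    rw [range_subset_range]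
    exact h
  · intro n _ _
    positivity

theorem q_pow (r : ℕ) : (((2 ^ r : ℕ) : ℝ)) ^ (-(1 / 4) : ℝ) = ((2 : ℝ) ^ (-(1 / 4) : ℝ)) ^ r := by
  push_cast
  rw [← Real.rpow_natCast, ← Real.rpow_natCast, ← Real.rpow_mul (by norm_num),
    ← Real.rpow_mul (by norm_num), mul_comm]

/-- one residue class -/
theorem ae_one (M : ℕ) (c : ℝ) (hc : 0 < c) (ρ : ℕ) (A : ℝ)
    (h : ∀ (w : ℕ → ZMod 2) (K N : ℕ), 1 ≤ K → K ≤ N →
      (#{t ∈ range (2 ^ N) | t % 2 = 1 ∧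
        (∑ n ∈ range (2 ^ K) with n % M = ρ % M ∧ coeff n (P2 ^ t) ≠ w n, 1 / ((n : ℝ) + 1)) <
          c * K} : ℝ) ≤ A * (K : ℝ) ^ (-(1 / 4) : ℝ) * 2 ^ N)
    (w : ℕ → ZMod 2) [MeasurableSpace ℤ_[2]] [BorelSpace ℤ_[2]] (μ : Measure ℤ_[2])
    [IsProbabilityMeasure μ] [μ.IsAddLeftInvariant] :
    ∀ᵐ t ∂μ, t.appr 1 = 1 → ∃ x₀ : ℕ, ∀ x : ℕ, x₀ ≤ x →
      c / 2 * Real.log x ≤ SD M ρ w t (x + 1) := by
  classical
  let s : ℕ → Set ℤ_[2] := fun r => {t | t.appr 1 = 1 ∧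
    SD M ρ w t (2 ^ (2 ^ r)) < c * ((2 ^ r : ℕ) : ℝ)}
  have hs : ∀ r, μ (s r) ≤ ENNReal.ofReal (A * ((2 : ℝ) ^ (-(1 / 4) : ℝ)) ^ r) := by
    intro r
    set K := 2 ^ r with hK
    have hK1 : 1 ≤ K := Nat.one_le_two_pow
    have hsub : s r ⊆ {t : ℤ_[2] | t.appr K ∈ ({t ∈ range (2 ^ K) | t % 2 = 1 ∧
        (∑ n ∈ range (2 ^ K) with n % M = ρ % M ∧ coeff n (P2 ^ t) ≠ w n, 1 / ((n : ℝ) + 1)) <
          c * K} : Finset ℕ)} := by
      intro t ht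
      obtain ⟨h1, h2⟩ := ht
      change t.appr K ∈ ({t ∈ range (2 ^ K) | t % 2 = 1 ∧
        (∑ n ∈ range (2 ^ K) with n % M = ρ % M ∧ coeff n (P2 ^ t) ≠ w n, 1 / ((n : ℝ) + 1)) <
          c * K} : Finset ℕ)
      rw [mem_filter, mem_range]
      refine ⟨PadicInt.appr_lt t K, ?_, ?_⟩
      · have h3 := appr_modEq t hK1
        rw [pow_one] at h3
        have h4 : t.appr 1 % 2 = t.appr K % 2 := h3
        rw [← h4, h1]
      · refine lt_of_le_of_lt (le_of_eq ?_) h2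
        unfold SD
        refine sum_congr (filter_congr fun n hn => ?_) fun _ _ => rfl
        rw [pz_eq t (mem_range.1 hn)]
    refine (measure_mono hsub).trans ?_
    refine (measure_finset μ K _ (filter_subset _ _)).trans ?_
    apply ENNReal.ofReal_le_ofReal
    rw [div_le_iff₀ (by positivity), ← q_pow]
    exact h w K K hK1 le_rfl
  have hq0 : (0 : ℝ) ≤ (2 : ℝ) ^ (-(1 / 4) : ℝ) := by positivity
  have hq1 : (2 : ℝ) ^ (-(1 / 4) : ℝ) < 1 :=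
    Real.rpow_lt_one_of_one_lt_of_neg (by norm_num) (by norm_num)
  have hsum : ∑' i, μ (s i) ≠ ⊤ := by
    have h1 : Summable fun i : ℕ => A * ((2 : ℝ) ^ (-(1 / 4) : ℝ)) ^ i :=
      (summable_geometric_of_lt_one hq0 hq1).mul_left A
    exact ne_top_of_le_ne_top h1.tsum_ofReal_ne_top (ENNReal.tsum_le_tsum hs)
  filter_upwards [ae_eventually_notMem hsum] with t ht h1
  obtain ⟨i1, hi1⟩ := Filter.eventually_atTop.1 ht
  refine ⟨2 ^ (2 ^ i1), fun x hx => ?_⟩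
  have hx1 : 1 ≤ x := le_trans Nat.one_le_two_pow hx
  set j := Nat.log 2 x with hj
  have hjx : 2 ^ j ≤ x := Nat.pow_log_le_self 2 (by omega)
  have hjx2 : x < 2 ^ (j + 1) := Nat.lt_pow_succ_log_self (by norm_num) _
  have hjge : 2 ^ i1 ≤ j := Nat.le_log_of_pow_le (by norm_num) hx
  have hj0 : j ≠ 0 := by
    have : 0 < 2 ^ i1 := by positivity
    omega
  set r := Nat.log 2 j with hr
  have hrj : 2 ^ r ≤ j := Nat.pow_log_le_self 2 hj0
  have hrj2 : j < 2 ^ (r + 1) := Nat.lt_pow_succ_log_self (by norm_num) _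
  have hri : i1 ≤ r := Nat.le_log_of_pow_le (by norm_num) hjge
  have h2 := hi1 r hri
  have h3 : ¬ (t.appr 1 = 1 ∧ SD M ρ w t (2 ^ (2 ^ r)) < c * ((2 ^ r : ℕ) : ℝ)) := h2
  rw [not_and, not_lt] at h3
  have h4 := h3 h1
  have h5 : 2 ^ (2 ^ r) ≤ x + 1 := by
    have : 2 ^ (2 ^ r) ≤ 2 ^ j := Nat.pow_le_pow_right (by norm_num) hrj
    omega
  refine le_trans ?_ (h4.trans (SD_mono M ρ w t h5))
  have h6 : Real.log x ≤ (j : ℝ) + 1 := by
    have h7 : (x : ℝ) ≤ 2 ^ (j + 1) := by exact_mod_cast hjx2.le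
    have h8 := Real.log_le_log (by exact_mod_cast hx1) h7
    rw [Real.log_pow] at h8
    push_cast at h8
    have h9 := Real.log_two_lt_d9
    have h10 : 0 ≤ Real.log 2 := Real.log_nonneg (by norm_num)
    have h11 : (0 : ℝ) ≤ (j : ℝ) + 1 := by positivity
    nlinarith
  have h7 : (j : ℝ) + 1 ≤ 2 * ((2 ^ r : ℕ) : ℝ) := by
    have : j + 1 ≤ 2 * 2 ^ r := by
      rw [pow_succ] at hrj2
      omega
    exact_mod_cast this
  calc c / 2 * Real.log x ≤ c / 2 * (2 * ((2 ^ r : ℕ) : ℝ)) := by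
        apply mul_le_mul_of_nonneg_left (h6.trans h7) (by positivity)
    _ = c * ((2 ^ r : ℕ) : ℝ) := by ring

theorem d7 (h6 : S_D6) : S_D7 := by
  intro M hM
  obtain ⟨c, hc, h⟩ := h6 M hM
  refine ⟨c / 2, by positivity, ?_⟩
  intro w _ _ μ _ _
  have key : ∀ ρ : ℕ, ∀ᵐ t ∂μ, t.appr 1 = 1 → ∃ x₀ : ℕ, ∀ x : ℕ, x₀ ≤ x →
      c / 2 * Real.log x ≤ SD M ρ w t (x + 1) := by
    intro ρ
    obtain ⟨A, hA, hh⟩ := h ρ
    refine ae_one M c hc ρ A ?_ w μ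
    intro w K N hK hN
    exact hh w K N hK hN
  filter_upwards [(MeasureTheory.ae_all_iff).2 key] with t ht h1 ρ
  exact ht ρ h1

end Pool.Agent.H168.PPD7
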