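import Pool.Agent.H666.TK.SpecC

/-!
# Coverage under the vertex weight
-/

set_option autoImplicit false

open Finset
open scoped Classical

namespace Pool.Agent.H168.TKe2

open Pool.Agent.H666.TK

lemma sum_lt (n m : ℕ) (hm : m ≤ n) (F : ℕ → ℝ) :
    ∑ r' ∈ univ.filter (fun r' : Fin n => (r' : ℕ) < m), F r' = ∑ i ∈ range m, F i := by
  rw [Finset.sum_filter, Fin.sum_univ_eq_sum_range (fun i => if i < m then F i else 0) n, ← Finset.sum_filter]
  apply Finset.sum_congr _ (fun _ _ => rfl)
  ext i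
  simp only [Finset.mem_filter, Finset.mem_range]
  omega

lemma sum_sg (K m : ℕ) (hm : m ≤ 2 * K) :
    ∑ i ∈ range m, (if i < K then (1 : ℝ) else -1) = min (m : ℝ) (2 * K - m) := by
  have h : ∀ m : ℕ, ∑ i ∈ range m, (if i < K then (1 : ℝ) else -1) = if m ≤ K then (m : ℝ) else 2 * K - m := by
    intro m
    induction m with
    | zero => simp
    | succ m ih =>
      rw [Finset.sum_range_succ, ih]
      rcases lt_trichotomy m K with h | h | h
      · rw [if_pos h.le, if_pos h, if_pos (by omega)]; push_cast; ring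
      · subst h
        rw [if_pos le_rfl, if_neg (lt_irrefl _), if_neg (by omega)]; push_cast; ring
      · rw [if_neg (by omega), if_neg (by omega), if_neg (by omega)]; push_cast; ring
  rw [h m]
  split_ifs with h1
  · have : (m : ℝ) ≤ K := by exact_mod_cast h1
    rw [min_eq_left (by linarith)]
  · have : (K : ℝ) ≤ m := by exact_mod_cast (not_le.1 h1).le
    rw [min_eq_right (by linarith)]

lemma sum_sgn_lt (K : ℕ) (r : Fin (2 * K)) :
    ∑ r' ∈ univ.filter (fun r' : Fin (2 * K) => r' < r), sgn K r' = 2 * K * GG K r := by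
  have h1 := sum_lt (2 * K) (r : ℕ) r.2.le (fun i => if i < K then (1 : ℝ) else -1)
  have h2 := sum_sg K (r : ℕ) r.2.le
  have hK : (K : ℝ) ≠ 0 := by
    have := r.2
    have : K ≠ 0 := by omega
    exact_mod_cast this
  rw [h2] at h1
  have h3 : 2 * (K : ℝ) * GG K r = min ((r : ℕ) : ℝ) (2 * K - ((r : ℕ) : ℝ)) := by
    unfold GG; field_simp
  rw [h3, ← h1]
  rfl

lemma sum_sgn (K : ℕ) : ∑ r : Fin (2 * K), sgn K r = 0 := by
  have h1 := Fin.sum_univ_eq_sum_range (fun i => if i < K then (1 : ℝ) else -1) (2 * K)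
  rw [sum_sg K (2 * K) le_rfl] at h1
  have h2 : ∑ r : Fin (2 * K), sgn K r = ∑ r : Fin (2 * K), (if (r : ℕ) < K then (1 : ℝ) else -1) := rfl
  rw [h2, h1]
  push_cast
  simp

lemma GG_nonneg (K : ℕ) (r : Fin (2 * K)) : 0 ≤ GG K r := by
  have h : ((r : ℕ) : ℝ) ≤ 2 * K := by exact_mod_cast r.2.le
  unfold GG
  apply div_nonneg _ (by positivity)
  exact le_min (Nat.cast_nonneg _) (by linarith)

/-- the factor -/
noncomputable def gg (K : ℕ) (A : Finset (Fin K)) (j : Fin K) (r : Fin (2 * K)) : ℝ :=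
  if j ∈ A then 1 + sgn K r / 2 else 1

lemma W2_eq (K : ℕ) (A : Finset (Fin K)) (u : Fin K → Fin (2 * K)) : W2 K A u = ∏ j, gg K A j (u j) := by
  unfold W2 gg
  rw [Finset.prod_ite_mem, Finset.univ_inter]

lemma gg_pos (K : ℕ) (A : Finset (Fin K)) (j : Fin K) (r : Fin (2 * K)) : 0 < gg K A j r := by
  unfold gg sgn
  split_ifs <;> norm_num

lemma gg_sum (K : ℕ) (A : Finset (Fin K)) (j : Fin K) : ∑ r, gg K A j r = ((2 * K : ℕ) : ℝ) := by
  unfold gg
  split_ifs
  · rw [Finset.sum_add_distrib, ← Finset.sum_div, sum_sgn]; simp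
  · simp

lemma gg_sum_lt (K : ℕ) (A : Finset (Fin K)) (j : Fin K) (r : Fin (2 * K)) :
    ∑ r' ∈ univ.filter (fun r' : Fin (2 * K) => r' < r), gg K A j r' =
      ((r : ℕ) : ℝ) + (if j ∈ A then 2 * K * GG K r / 2 else 0) := by
  have hc : ((univ.filter (fun r' : Fin (2 * K) => r' < r)).card : ℝ) = ((r : ℕ) : ℝ) := by
    have h := sum_lt (2 * K) (r : ℕ) r.2.le (fun _ => (1 : ℝ))
    rw [Finset.sum_const, Finset.sum_const, nsmul_eq_mul, nsmul_eq_mul, mul_one, mul_one, Finset.card_range] at h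
    exact h
  unfold gg
  split_ifs
  · rw [Finset.sum_add_distrib, ← Finset.sum_div, sum_sgn_lt, Finset.sum_const, nsmul_eq_mul, mul_one, hc]
  · rw [Finset.sum_const, nsmul_eq_mul, mul_one, hc, add_zero]

theorem e2 (hp : S_prod3) : S_e2 := by
  intro K A φ hK hφ x y hxy
  have hK0 : (0 : ℝ) < K := by exact_mod_cast hK
  set R : ℝ := ((2 * K : ℕ) : ℝ) with hR
  have hR2 : R = 2 * K := by rw [hR]; push_cast; ring
  have hR0 : 0 < R := by rw [hR2]; positivity
  set Q : ℝ := Lam K φ + (if x ∈ A ∨ y ∈ A then The K φ / 2 else 0) with hQ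
  have hL0 : 0 ≤ Lam K φ := by
    unfold Lam
    apply div_nonneg _ (by positivity)
    exact Finset.sum_nonneg fun r _ => mul_nonneg (hφ r) (sq_nonneg _)
  have hT0 : 0 ≤ The K φ := by
    unfold The
    apply div_nonneg _ (by positivity)
    exact Finset.sum_nonneg fun r _ => mul_nonneg (mul_nonneg (hφ r) (by positivity)) (GG_nonneg K r)
  have hQ0 : 0 ≤ Q := by
    rw [hQ]
    split_ifs
    · linarith
    · linarith
  -- the identity for one index
  have hone : ∀ i : Fin K, i ∉ A → i ≠ x → i ≠ y →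
      R ^ K * Q ≤ ∑ u : Fin K → Fin (2 * K), (∏ j, gg K A j (u j)) * (if u x < u i ∧ u y < u i then φ (u i) else 0) := by
    intro i hiA hix hiy
    have h := hp K (2 * K) (gg K A) (gg_sum K A) i x y hix hiy hxy φ
    have hlow : R ^ 3 * (R ^ K * Q) ≤ R ^ K * ∑ r, gg K A i r * φ r *
        (∑ r' ∈ univ.filter (fun r' => r' < r), gg K A x r') * (∑ r' ∈ univ.filter (fun r' => r' < r), gg K A y r') := by
      have e1 : R ^ 3 * Q = ∑ r : Fin (2 * K), φ r * ((((r : ℕ) : ℝ)) ^ 2 +
          (if x ∈ A ∨ y ∈ A then ((r : ℕ) : ℝ) * (2 * K * GG K r / 2) else 0)) := by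
        rw [hQ]
        unfold Lam The
        rw [hR2]
        split_ifs
        · have : ∀ r : Fin (2 * K), φ r * ((((r : ℕ) : ℝ)) ^ 2 + ((r : ℕ) : ℝ) * (2 * K * GG K r / 2)) =
              (2 * K : ℝ) ^ 2 * (φ r * (((r : ℕ) : ℝ) / (2 * K)) ^ 2) +
                (2 * K : ℝ) ^ 2 / 2 * (φ r * (((r : ℕ) : ℝ) / (2 * K)) * GG K r) := by
            intro r; field_simp
          rw [Finset.sum_congr rfl (fun r _ => this r), Finset.sum_add_distrib, ← Finset.mul_sum, ← Finset.mul_sum]
          field_simp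
        · have : ∀ r : Fin (2 * K), φ r * ((((r : ℕ) : ℝ)) ^ 2 + 0) =
              (2 * K : ℝ) ^ 2 * (φ r * (((r : ℕ) : ℝ) / (2 * K)) ^ 2) := by
            intro r; field_simp; ring
          rw [Finset.sum_congr rfl (fun r _ => this r), ← Finset.mul_sum]
          field_simp
          ring
      have e2 : R ^ 3 * (R ^ K * Q) = R ^ K * (R ^ 3 * Q) := by ring
      rw [e2, e1]
      apply mul_le_mul_of_nonneg_left _ (by positivity)
      apply Finset.sum_le_sum
      intro r _
      rw [gg_sum_lt, gg_sum_lt]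
      have hgi : gg K A i r = 1 := by unfold gg; rw [if_neg hiA]
      rw [hgi, one_mul, mul_assoc (φ r)]
      apply mul_le_mul_of_nonneg_left _ (hφ r)
      have hr0 : (0 : ℝ) ≤ ((r : ℕ) : ℝ) := Nat.cast_nonneg _
      have hg0 : 0 ≤ 2 * K * GG K r / 2 := by
        have := GG_nonneg K r
        positivity
      by_cases h1 : x ∈ A <;> by_cases h2 : y ∈ A <;> simp only [h1, h2, if_true, if_false, or_true, or_self, or_false] <;> nlinarith
    rw [← h] at hlow
    exact le_of_mul_le_mul_left hlow (by positivity)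
  -- the sum over the good indices
  let B : Finset (Fin K) := univ \ (A ∪ {x, y})
  have hB : (K : ℝ) - 2 - A.card ≤ B.card := by
    have h1 : (A ∪ {x, y}).card ≤ A.card + 2 := (Finset.card_union_le _ _).trans (by
      have := Finset.card_le_two (a := x) (b := y)
      omega)
    have h2 : B.card = K - (A ∪ {x, y}).card := by
      simp only [B]
      rw [Finset.card_sdiff_of_subset (Finset.subset_univ _), Finset.card_univ, Fintype.card_fin]
    have h3 : (A ∪ {x, y}).card ≤ K := by
      have := Finset.card_le_univ (A ∪ {x, y})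
      rwa [Fintype.card_fin] at this
    have h4 : K ≤ B.card + (A.card + 2) := by omega
    have h5 : (K : ℝ) ≤ B.card + (A.card + 2) := by exact_mod_cast h4
    linarith
  calc R ^ K * (((K : ℝ) - 2 - A.card) * Q) ≤ R ^ K * ((B.card : ℝ) * Q) := by
        apply mul_le_mul_of_nonneg_left _ (by positivity)
        exact mul_le_mul_of_nonneg_right hB hQ0
    _ = ∑ i ∈ B, R ^ K * Q := by rw [Finset.sum_const, nsmul_eq_mul]; ring
    _ ≤ ∑ i ∈ B, ∑ u : Fin K → Fin (2 * K), (∏ j, gg K A j (u j)) * (if u x < u i ∧ u y < u i then φ (u i) else 0) := by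
        apply Finset.sum_le_sum
        intro i hi
        simp only [B, Finset.mem_sdiff, Finset.mem_univ, true_and, Finset.mem_union, Finset.mem_insert,
          Finset.mem_singleton, not_or] at hi
        exact hone i hi.1 hi.2.1 hi.2.2
    _ ≤ ∑ i : Fin K, ∑ u : Fin K → Fin (2 * K), (∏ j, gg K A j (u j)) * (if u x < u i ∧ u y < u i then φ (u i) else 0) := by
        apply Finset.sum_le_sum_of_subset_of_nonneg (Finset.subset_univ _)
        intro i _ _
        apply Finset.sum_nonneg
        intro u _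
        apply mul_nonneg (Finset.prod_nonneg fun j _ => (gg_pos K A j _).le)
        split_ifs
        · exact hφ _
        · exact le_rfl
    _ = ∑ u : Fin K → Fin (2 * K), W2 K A u * ∑ i : Fin K, (if u x < u i ∧ u y < u i then φ (u i) else 0) := by
        rw [Finset.sum_comm]
        apply Finset.sum_congr rfl
        intro u _
        rw [W2_eq, Finset.mul_sum]

end Pool.Agent.H168.TKe2
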